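import Pool.Agent.W251.EX.Defs
import Pool.Agent.W816.EC.Lmean

/-! # Mean values of `b^Ω` times a character -/

set_option autoImplicit false

open Finset Filter Topology Complex
open ArithmeticFunction (vonMangoldt cardFactors)

namespace Pool.Agent.W318.EX

open Pool.Agent.H376R2.MR
open Pool.Agent.W78.GA
open Pool.Agent.W78.EC
open Pool.Agent.W251.EX
open Pool.Agent.H304R3.HK (Lg)
open Pool.Agent.W816.EC

theorem re_lt {b : ℂ} (hb : ‖b‖ = 1) (h1 : b ≠ 1) : b.re < 1 := by
  by_contra h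
  push Not at h
  have h2 : b.re ^ 2 + b.im ^ 2 = 1 := by
    have h3 := Complex.normSq_eq_norm_sq b
    rw [hb, Complex.normSq_apply] at h3
    nlinarith
  have h4 : b.im ^ 2 ≤ 0 := by nlinarith
  have h5 : b.im = 0 := by
    have := le_antisymm h4 (sq_nonneg _)
    exact pow_eq_zero_iff (two_ne_zero) |>.1 this
  have h6 : b.re = 1 := by
    rw [h5] at h2
    nlinarith
  exact h1 (Complex.ext (by simpa using h6) (by simpa using h5))

theorem lim_g {b : ℂ} (hb : ‖b‖ = 1) (c : ℕ → ℂ) (hc : ∀ n, ‖c n‖ ≤ 2) (δ : ℝ)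
    (hlim : Tendsto (fun x : ℝ => (∑ n ∈ Icc 1 ⌊x⌋₊,
      (vonMangoldt n : ℂ) * c n) / (x : ℂ)) atTop (𝓝 (δ : ℂ))) :
    Tendsto (fun x : ℝ => (∑ n ∈ Icc 1 ⌊x⌋₊,
      b ^ cardFactors n * ((vonMangoldt n : ℂ) * c n)) / (x : ℂ)) atTop (𝓝 (b * (δ : ℂ))) := by
  have hD : Tendsto (fun x : ℝ => (∑ n ∈ Icc 1 ⌊x⌋₊,
      (b ^ cardFactors n - b) * ((vonMangoldt n : ℂ) * c n)) / (x : ℂ)) atTop (𝓝 0) := by
    have h0 : Tendsto (fun x : ℝ => 4 * (Chebyshev.psi x / x - Chebyshev.theta x / x)) atTop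
        (𝓝 0) := by
      have := (Pool.Agent.Helper923.PNT.psi_div_tendsto.sub
        Pool.Agent.Helper923.PNT.theta_div_tendsto).const_mul 4
      simpa using this
    refine squeeze_zero_norm' ?_ h0
    filter_upwards [eventually_gt_atTop 0] with x hx
    rw [norm_div, Complex.norm_real, Real.norm_eq_abs, abs_of_pos hx, ← sub_div, mul_div_assoc']
    refine div_le_div_of_nonneg_right ?_ hx.le
    refine (norm_sum_le _ _).trans ?_
    have hI : Icc 1 ⌊x⌋₊ = Ioc 0 ⌊x⌋₊ := by
      ext n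
      simp only [mem_Icc, mem_Ioc]
      omega
    rw [Chebyshev.psi, Chebyshev.theta, hI, Finset.sum_filter, ← Finset.sum_sub_distrib,
      Finset.mul_sum]
    refine Finset.sum_le_sum fun n _ => ?_
    by_cases hp : n.Prime
    · rw [if_pos hp, ArithmeticFunction.cardFactors_apply_prime hp,
        ArithmeticFunction.vonMangoldt_apply_prime hp]
      simp
    · rw [if_neg hp, sub_zero, norm_mul, norm_mul, Complex.norm_real, Real.norm_eq_abs,
        abs_of_nonneg ArithmeticFunction.vonMangoldt_nonneg]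
      have e1 : ‖b ^ cardFactors n - b‖ ≤ 2 := by
        refine (norm_sub_le _ _).trans ?_
        rw [norm_pow, hb, one_pow]
        norm_num
      have e2 : 0 ≤ vonMangoldt n := ArithmeticFunction.vonMangoldt_nonneg
      calc ‖b ^ cardFactors n - b‖ * (vonMangoldt n * ‖c n‖) ≤ 2 * (vonMangoldt n * 2) := by
            apply mul_le_mul e1 _ (by positivity) (by norm_num)
            exact mul_le_mul_of_nonneg_left (hc n) e2
        _ = 4 * vonMangoldt n := by ring
  have h1 := (hlim.const_mul b).add hD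
  rw [add_zero] at h1
  refine h1.congr fun x => ?_
  rw [mul_div_assoc', ← add_div, Finset.mul_sum, ← Finset.sum_add_distrib]
  congr 1
  refine Finset.sum_congr rfl fun n _ => ?_
  ring

theorem lmx (h1 : S_PNTC) (h2 : S_AMV) (_hL : Pool.Agent.W78.EC.S_LCON) : S_LMX := by
  intro N b hN hbN hb1 M φ hM H ε hε
  have hb : ‖b‖ = 1 := Complex.norm_eq_one_of_pow_eq_one hbN (by omega)
  obtain ⟨c, δ, hLg, hδ, hlim⟩ := h1 M φ hM H
  have hphi := phi_le hM H
  have key : Tendsto (fun x : ℝ => (∑ n ∈ Icc 1 ⌊x⌋₊, b ^ cardFactors n * aL φ n) / (x : ℂ))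
      atTop (𝓝 0) := by
    refine h2 (fun n => b ^ cardFactors n * aL φ n)
      (fun n => b ^ cardFactors n * ((vonMangoldt n : ℂ) * c n)) rr 9 (b * (δ : ℂ)) ?_
    refine ⟨?_, ?_, ?_, ?_, lim_g hb c hLg.cd δ hlim, ?_⟩
    · intro n
      rw [norm_mul, norm_pow, hb, one_pow, one_mul]
      exact aL_le hphi n
    · exact sum_rr_le
    · intro n
      rw [norm_mul, norm_pow, hb, one_pow, one_mul, norm_mul, Complex.norm_real, Real.norm_eq_abs,
        abs_of_nonneg ArithmeticFunction.vonMangoldt_nonneg, mul_comm]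
      exact mul_le_mul_of_nonneg_right ((hLg.cd n).trans (by norm_num))
        ArithmeticFunction.vonMangoldt_nonneg
    · intro n hn
      have hn0 : n ≠ 0 := by omega
      rw [mul_assoc, hLg.lg n hn0, Finset.mul_sum]
      refine Finset.sum_congr rfl fun d hd => ?_
      obtain ⟨hdn, _⟩ := Nat.mem_divisors.1 hd
      obtain ⟨e, rfl⟩ := hdn
      have hd0 : d ≠ 0 := fun h => hn0 (by simp [h])
      have he0 : e ≠ 0 := fun h => hn0 (by simp [h])
      rw [Nat.mul_div_cancel_left e (Nat.pos_of_ne_zero hd0),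
        ArithmeticFunction.cardFactors_mul hd0 he0, pow_add]
      ring
    · rcases hδ with h | h
      · rw [h]
        simp
      · rw [h]
        simpa using re_lt hb hb1
  have e1 := key.eventually (Metric.ball_mem_nhds 0 (show (0 : ℝ) < ε / 4 by positivity))
  obtain ⟨X₁, hX₁⟩ := Filter.eventually_atTop.1 e1
  refine ⟨max X₁ 1, fun X hX => ?_⟩
  have hXp : 0 < X := lt_of_lt_of_le one_pos ((le_max_right _ _).trans hX)
  have h3 := hX₁ X ((le_max_left _ _).trans hX)
  rw [dist_zero_right, norm_div, Complex.norm_real, Real.norm_eq_abs, abs_of_pos hXp,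
    div_lt_iff₀ hXp] at h3
  rw [sum_ball]
  have e3 : ∀ k ∈ Icc 1 ⌊X⌋₊, ∑ z ∈ (ball 0 1 (k : ℝ)).filter (fun z => nm z = k),
      bO b z * φ z = 4 * (b ^ cardFactors k * aL φ k) := by
    intro k _
    have : ∑ z ∈ (ball 0 1 (k : ℝ)).filter (fun z => nm z = k), bO b z * φ z =
        b ^ cardFactors k * ∑ z ∈ (ball 0 1 (k : ℝ)).filter (fun z => nm z = k), φ z := by
      rw [Finset.mul_sum]
      refine Finset.sum_congr rfl fun z hz => ?_
      rw [mem_filter] at hz
      unfold bO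
      rw [hz.2]
    rw [this]
    unfold aL
    ring
  rw [Finset.sum_congr rfl e3, ← Finset.mul_sum, norm_mul]
  have h5 : ‖(4 : ℂ)‖ = 4 := by norm_num
  rw [h5]
  linarith

end Pool.Agent.W318.EX
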